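import Pool.Agent.Helper97.FS.Stmts
import Pool.Agent.Helper16.Sub.A2
import Pool.Agent.Helper16.Sub.H

set_option autoImplicit false

namespace Pool.Agent.Helper97.FS

open Finset MeasureTheory Filter Topology
open scoped ComplexConjugate
open Pool.Agent.Helper97.Sub

section bd

variable {d : ℕ}
variable {σ : Fin d → List (Fin d)} {G : List (Fin d) → ℂ} {w : ℕ} {z : ℂ} {B r c₀ C₀ K : ℝ}

/-- explicit constant of the upper bound for the tile sums -/
noncomputable def bd_A (w : ℕ) (B r c₀ C₀ K : ℝ) : ℝ :=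
  (0 + (w * B + (2 * K * C₀ * r ^ 2 / c₀ + 1)) * r / (r - 1)) +
    (B + (2 * K * C₀ * r ^ 2 / c₀ + 1) * r / (r - 1))

/-- Upper bound for the tile sums, explicit constant. -/
theorem bd_tile_upper (hσ : ∀ a, σ a ≠ []) (h : Dat σ G w z B r c₀ C₀ K) :
    ∀ k a, ‖TS G w z (T σ k a)‖ ≤ bd_A w B r c₀ C₀ K * r ^ k := by
  have hr := h.hr
  have hr0 : 0 < r := by linarith
  have hB := h.hB
  have hK := h.hK
  have hc₀ := h.hc₀
  intro k0 a0
  have : Nonempty (Fin d) := ⟨a0⟩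
  have hC0 : 0 ≤ C₀ := by
    have h5 := h.up 0 a0
    have h6 : (0:ℝ) ≤ ((T σ 0 a0).length : ℝ) := Nat.cast_nonneg _
    simp only [mul_zero, pow_zero, mul_one] at h5
    linarith
  unfold bd_A
  set κ := 2 * K * C₀ * r ^ 2 / c₀ + 1 with hκ
  have hκ0 : 0 ≤ κ := by positivity
  -- left
  have hleft : ∀ k a, ‖Fb G w z (T σ k a)‖ ≤ (0 + (w * B + κ) * r / (r - 1)) * r ^ k := by
    intro k a
    have hx := geo_bound (fun k => ⨆ a, ‖Fb G w z (T σ k a)‖) r 0 (w * B + κ) hr (by positivity)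
      le_rfl ?_ ?_ k
    · exact (le_ciSup (Set.finite_range fun a => ‖Fb G w z (T σ k a)‖).bddAbove a).trans hx
    · apply ciSup_le
      intro a
      simp [Fb, T_zero, PS]
    · intro k
      apply ciSup_le
      intro a
      obtain ⟨c, v, hcv⟩ := List.exists_cons_of_ne_nil (hσ a)
      have h1 := h.left_step k a c (v.flatMap (T σ k)) (by rw [T_succ, hcv, List.flatMap_cons])
      have h2 := le_ciSup (Set.finite_range fun a => ‖Fb G w z (T σ k a)‖).bddAbove c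
      have h3 : (1:ℝ) ≤ r ^ (k + 1) := one_le_pow₀ hr.le
      have h4 : (w:ℝ) * B ≤ w * B * r ^ (k + 1) := le_mul_of_one_le_right (by positivity) h3
      calc ‖Fb G w z (T σ (k + 1) a)‖ ≤ _ := h1
        _ ≤ (⨆ a, ‖Fb G w z (T σ k a)‖) + (w * B + κ) * r ^ (k + 1) := by
          rw [add_mul]; linarith
  have hright : ∀ k a, ‖TS G w z (T σ k a) - Fb G w z (T σ k a)‖ ≤
      (B + κ * r / (r - 1)) * r ^ k := by
    intro k a
    have hx := geo_bound (fun k => ⨆ a, ‖TS G w z (T σ k a) - Fb G w z (T σ k a)‖) r B κ hr hκ0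
      hB ?_ ?_ k
    · exact (le_ciSup (Set.finite_range
        fun a => ‖TS G w z (T σ k a) - Fb G w z (T σ k a)‖).bddAbove a).trans hx
    · apply ciSup_le
      intro a
      have h0 : Fb G w z (T σ 0 a) = 0 := by simp [Fb, T_zero, PS]
      rw [h0, sub_zero, T_zero]
      exact TS_single_le h a
    · intro k
      apply ciSup_le
      intro a
      obtain ⟨v, c, hcv⟩ : ∃ v c, σ a = v ++ [c] :=
        ⟨(σ a).dropLast, (σ a).getLast (hσ a), (List.dropLast_append_getLast (hσ a)).symm⟩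
      have h1 := h.right_step k a c (v.flatMap (T σ k)) (by
        rw [T_succ, hcv, List.flatMap_append]; simp)
      have h2 := le_ciSup (Set.finite_range
        fun a => ‖TS G w z (T σ k a) - Fb G w z (T σ k a)‖).bddAbove c
      linarith
  have h1 := hleft k0 a0
  have h2 := hright k0 a0
  have e : TS G w z (T σ k0 a0) = Fb G w z (T σ k0 a0) +
    (TS G w z (T σ k0 a0) - Fb G w z (T σ k0 a0)) := by ring
  rw [e, add_mul]
  exact (norm_add_le _ _).trans (add_le_add h1 h2)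

/-- prefix sums of a word in terms of the sums over the prefixes -/
theorem bd_PS_le (hz : ‖z‖ = 1) (hB : 0 ≤ B)
    (hG : ∀ v : List (Fin d), v.length = w → ‖G v‖ ≤ B) (W : List (Fin d)) {P : ℝ}
    (hP : ∀ p, p <+: W → ‖TS G w z p‖ ≤ P) (u : ℕ) (hu : u ≤ W.length) :
    ‖PS G w z W u‖ ≤ P + w * B := by
  have h1 := PS_append_left hz hB hG (W.take u) (W.drop u) u
    (by rw [List.length_take]; omega)
  rw [List.take_append_drop] at h1
  have h2 := hP (W.take u) (List.take_prefix u W)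
  have h3 : TS G w z (W.take u) = PS G w z (W.take u) u := by
    rw [TS, List.length_take, min_eq_left hu]
  rw [h3] at h2
  have h4 := norm_sub_norm_le (PS G w z W u) (PS G w z (W.take u) u)
  linarith

/-- Abel summation -/
theorem bd_abel (a : ℕ → ℂ) (ζ : ℂ) (n : ℕ) :
    ∑ l ∈ range n, a l * ζ ^ l = (∑ l ∈ range n, a l) * ζ ^ n +
      ∑ l ∈ range n, (∑ i ∈ range (l + 1), a i) * (ζ ^ l - ζ ^ (l + 1)) := by
  induction n with
  | zero => simp
  | succ n ih =>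
    rw [sum_range_succ, ih, sum_range_succ (fun l => (∑ i ∈ range (l + 1), a i) * _)]
    rw [sum_range_succ (fun i => a i) n]
    ring

theorem bd_abel_le (a : ℕ → ℂ) (ζ : ℂ) (hζ : ‖ζ‖ = 1) (n : ℕ) (S : ℝ)
    (hS : ∀ u, u ≤ n → ‖∑ l ∈ range u, a l‖ ≤ S) :
    ‖∑ l ∈ range n, a l * ζ ^ l‖ ≤ S * (1 + n * ‖ζ - 1‖) := by
  rw [bd_abel]
  refine (norm_add_le _ _).trans ?_
  rw [norm_mul, norm_pow, hζ, one_pow, mul_one]
  have h1 := hS n le_rfl
  have h2 : ‖∑ l ∈ range n, (∑ i ∈ range (l + 1), a i) * (ζ ^ l - ζ ^ (l + 1))‖ ≤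
      ∑ l ∈ range n, S * ‖ζ - 1‖ := by
    refine norm_sum_le_of_le _ ?_
    intro l hl
    rw [mem_range] at hl
    rw [norm_mul]
    have h3 : ζ ^ l - ζ ^ (l + 1) = - (ζ ^ l * (ζ - 1)) := by ring
    rw [h3, norm_neg, norm_mul, norm_pow, hζ, one_pow, one_mul]
    exact mul_le_mul_of_nonneg_right (hS (l + 1) (by omega)) (norm_nonneg _)
  rw [sum_const, card_range, nsmul_eq_mul] at h2
  linarith

theorem bd_zc_norm (ω : AddCircle (1 : ℝ)) : ‖zc ω‖ = 1 := by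
  rw [zc, RCLike.norm_conj, fourier_apply]
  exact Circle.norm_coe _

theorem bd_zc_split (ω s : AddCircle (1 : ℝ)) : zc ω = zc s * zc (ω - s) := by
  rw [zc, zc, zc, ← map_mul]
  congr 1
  simp only [fourier_apply, one_smul]
  rw [← Circle.coe_mul, ← AddCircle.toCircle_add]
  congr 2
  abel

theorem bd_zc_sub (x : AddCircle (1 : ℝ)) : ‖zc x - 1‖ = ‖(fourier 1 x : ℂ) - 1‖ := by
  rw [zc, ← RCLike.norm_conj (conj (fourier 1 x : ℂ) - 1), map_sub, map_one, RCLike.conj_conj]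

/-- pointwise bound near a frequency -/
theorem bd_near (W : List (Fin d)) (ω s : AddCircle (1 : ℝ)) (S : ℝ)
    (hS : ∀ u, u ≤ W.length → ‖PS G w (zc s) W u‖ ≤ S) :
    ‖TS G w (zc ω) W‖ ≤ S * (1 + W.length * ‖(fourier 1 (ω - s) : ℂ) - 1‖) := by
  have h1 : TS G w (zc ω) W = ∑ l ∈ range W.length,
      (if l + w ≤ W.length then G ((W.drop l).take w) * zc s ^ l else 0) * zc (ω - s) ^ l := by
    rw [TS, PS]
    refine sum_congr rfl fun l _ => ?_
    by_cases h : l + w ≤ W.length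
    · rw [if_pos h, if_pos h, bd_zc_split ω s, mul_pow]; ring
    · rw [if_neg h, if_neg h]; ring
  rw [h1, ← bd_zc_sub]
  exact bd_abel_le _ _ (bd_zc_norm _) _ _ fun u hu => hS u hu

end bd

theorem st_BD : ST_BD := by
  intro d σ M θ X h hθ μ hμp hX hμ G w ν hν O C hO
  obtain ⟨B, hB, hG⟩ := exists_bound w G
  have hf : MemLp (fun x : ℤ → Fin d => G (List.ofFn (fun j : Fin w => x ((j : ℕ) : ℤ)))) 2 μ := by
    refine MemLp.of_bound (meas_f w G).aestronglyMeasurable B (Filter.Eventually.of_forall ?_)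
    intro x
    exact hG _ (by simp)
  have hKN : ∀ (N : ℕ) (s : AddCircle (1 : ℝ)),
      KN ν N s = ∫ x, ‖SN G w (conj (fourier 1 s)) N x‖ ^ 2 ∂μ := fun N s =>
    A2 _ μ _ hμ _ hf ν hν N s
  obtain ⟨-, c₀, hc₀, C₀, hC₀, hgr⟩ := h.growth H
  obtain ⟨k₀, hk₀⟩ := h.prim
  have hprim : ∀ a b, a ∈ T σ k₀ b := fun a b => mem_T h.cnt k₀ a b (hk₀ a b)
  set r := Real.sqrt θ with hr
  have hθ0 : 0 ≤ θ := by linarith
  have hr2 : ∀ k : ℕ, r ^ (2 * k) = θ ^ k := fun k => by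
    rw [pow_mul, hr, Real.sq_sqrt hθ0]
  have hr1 : 1 < r := by
    rw [hr, Real.lt_sqrt (by norm_num)]; simpa using hθ
  have hr0 : 0 < r := by linarith
  -- the constants
  set C' : ℝ := max C 0 with hC'
  have hC'0 : 0 ≤ C' := le_max_right _ _
  set R : ℝ := 2 * C₀ * θ ^ k₀ + 3 with hR
  set K : ℝ := 2 * R * C' + 2 * (C₀ + 1) * (w * B) ^ 2 with hK
  have hdat : ∀ s ∈ O, Dat σ G w (zc s) B r c₀ C₀ K := by
    intro s hs
    have hup' : ∀ N : ℕ, ∫ x, ‖SN G w (zc s) N x‖ ^ 2 ∂μ ≤ C' * N := fun N => by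
      have h1 := hO N s hs
      rw [hKN] at h1
      refine h1.trans ?_
      gcongr
      exact le_max_left _ _
    refine ⟨bd_zc_norm s, hB, hG, hr1, hc₀, by positivity, ?_, ?_, ?_⟩
    · intro k a; rw [hr2]; exact (hgr k a).1
    · intro k a; rw [hr2]; exact (hgr k a).2
    · intro k a N hN1 hN
      set Mx := ⌈C₀ * θ ^ (k + k₀)⌉₊ with hMx
      have hM : ∀ c, (T σ (k + k₀) c).length ≤ Mx := fun c => by
        have := (hgr (k + k₀) c).2.trans (Nat.le_ceil _)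
        exact_mod_cast this
      have h1 := h.energy hX hμ (bd_zc_norm s) hB hG hup' k₀ hprim k Mx hM a N hN
      refine h1.trans ?_
      rw [hr2]
      have hθk : 1 ≤ θ ^ k := one_le_pow₀ hθ.le
      have hMx2 : (Mx : ℝ) ≤ C₀ * θ ^ (k + k₀) + 1 :=
        (Nat.ceil_lt_add_one (by positivity)).le
      have hN1' : (1:ℝ) ≤ N := by exact_mod_cast hN1
      have h2 : ((2 * Mx + 1 : ℕ) : ℝ) ≤ R * θ ^ k := by
        push_cast
        calc 2 * (Mx : ℝ) + 1 ≤ 2 * (C₀ * θ ^ (k + k₀) + 1) + 1 := by gcongr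
          _ = 2 * C₀ * θ ^ k₀ * θ ^ k + 3 * 1 := by rw [pow_add]; ring
          _ ≤ 2 * C₀ * θ ^ k₀ * θ ^ k + 3 * θ ^ k := by gcongr
          _ = R * θ ^ k := by rw [hR]; ring
      have h3 : ((T σ k a).length : ℝ) + 1 ≤ (C₀ + 1) * θ ^ k := by
        have := (hgr k a).2
        linarith
      have h4 : 2 * (((2 * Mx + 1 : ℕ) : ℝ) * (C' * N)) ≤ 2 * (R * θ ^ k * (C' * N)) := by gcongr
      have h5 : 2 * (((T σ k a).length : ℝ) + 1) * (w * B) ^ 2 ≤
          2 * ((C₀ + 1) * θ ^ k) * (w * B) ^ 2 := by gcongr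
      have h6 : 2 * ((C₀ + 1) * θ ^ k) * (w * B) ^ 2 * 1 ≤
          2 * ((C₀ + 1) * θ ^ k) * (w * B) ^ 2 * N := by gcongr
      calc 2 * (((2 * Mx + 1 : ℕ) : ℝ) * (C' * N)) + 2 * (((T σ k a).length : ℝ) + 1) * (w * B) ^ 2
          ≤ 2 * (R * θ ^ k * (C' * N)) + 2 * ((C₀ + 1) * θ ^ k) * (w * B) ^ 2 * N := by linarith
        _ = K * θ ^ k * N := by rw [hK]; ring
  have hr11 : 0 < r - 1 := by linarith
  have hK0 : 0 ≤ K := by positivity
  set A₁ : ℝ := bd_A w B r c₀ C₀ K with hA₁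
  have hA10 : 0 ≤ A₁ := by rw [hA₁, bd_A]; positivity
  set sm : ℝ := C₀ * θ with hsm
  have hs : ∀ a, ((σ a).length : ℝ) ≤ sm := fun a => by
    have := (hgr 1 a).2
    rwa [T_one, pow_one] at this
  have hsm0 : 0 ≤ sm := by positivity
  set P : ℝ := B + (sm * (A₁ + w * B) + w * B) * r / (r - 1) with hP
  have hP0 : 0 ≤ P := by positivity
  set P' : ℝ := P + w * B with hP'
  have hP'0 : 0 ≤ P' := by positivity
  refine ⟨2 * P' ^ 2 * (1 + C₀ ^ 2), by positivity, ?_⟩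
  intro s hsO k c ω
  have hd := hdat s hsO
  have hPre := hd.prefix_upper hA10 (bd_tile_upper h.ne hd) hs hsm0
  have hrk : (1 : ℝ) ≤ r ^ k := one_le_pow₀ hr1.le
  have hPS : ∀ u, u ≤ (T σ k c).length → ‖PS G w (zc s) (T σ k c) u‖ ≤ P' * r ^ k := by
    intro u hu
    have h1 := bd_PS_le hd.hz hB hG (T σ k c) (P := P * r ^ k) (fun p hp => hPre k c p hp) u hu
    have h2 : (w : ℝ) * B ≤ w * B * r ^ k := le_mul_of_one_le_right (by positivity) hrk
    rw [hP', add_mul]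
    linarith
  have h1 := bd_near (T σ k c) ω s (P' * r ^ k) hPS
  set x := ‖(fourier 1 (ω - s) : ℂ) - 1‖ with hx
  have hx0 : 0 ≤ x := norm_nonneg _
  have hlen := (hgr k c).2
  have h2 : ‖Ek σ G w k c ω‖ ≤ P' * r ^ k * (1 + C₀ * θ ^ k * x) := by
    rw [Ek]
    refine h1.trans ?_
    gcongr
  have h3 : ‖Ek σ G w k c ω‖ ^ 2 ≤ (P' * r ^ k * (1 + C₀ * θ ^ k * x)) ^ 2 := by
    gcongr
  refine h3.trans ?_
  have h4 : (P' * r ^ k * (1 + C₀ * θ ^ k * x)) ^ 2 =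
      P' ^ 2 * θ ^ k * (1 + C₀ * (θ ^ k * x)) ^ 2 := by
    rw [mul_pow, mul_pow, ← hr2 k, mul_comm 2 k, pow_mul]; ring
  rw [h4]
  have h5 : (1 + C₀ * (θ ^ k * x)) ^ 2 ≤ 2 * (1 + C₀ ^ 2) * (1 + (θ ^ k) ^ 2 * x ^ 2) := by
    have h6 : (θ ^ k) ^ 2 * x ^ 2 = (θ ^ k * x) ^ 2 := by ring
    rw [h6]
    set y := θ ^ k * x
    nlinarith [sq_nonneg (C₀ * y - 1), sq_nonneg C₀, sq_nonneg y]
  have h7 : 0 ≤ P' ^ 2 * θ ^ k := by positivity
  calc P' ^ 2 * θ ^ k * (1 + C₀ * (θ ^ k * x)) ^ 2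
      ≤ P' ^ 2 * θ ^ k * (2 * (1 + C₀ ^ 2) * (1 + (θ ^ k) ^ 2 * x ^ 2)) := by gcongr
    _ = _ := by ring

end Pool.Agent.Helper97.FS
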